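import Mathlib

set_option autoImplicit false

namespace Pool.Agent.Results.MP_d015b4_co.NoAntichain

/-- `K` is a cutset for `x`: every element of `K` is incomparable to `x`, and `K ∪ {x}` meets
every maximal chain. -/
def IsCutsetFor {P : Type} [PartialOrder P] (x : P) (K : Set P) : Prop :=
  (∀ k ∈ K, ¬ k ≤ x ∧ ¬ x ≤ k) ∧
    ∀ C : Set P, IsMaxChain (· ≤ ·) C → ((K ∪ {x}) ∩ C).Nonempty

/-- `A` is a maximal antichain: an antichain not properly contained in any other antichain. -/
def IsMaximalAntichain {P : Type} [PartialOrder P] (A : Set P) : Prop :=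
  IsAntichain (· ≤ ·) A ∧ ∀ B : Set P, IsAntichain (· ≤ ·) B → A ⊆ B → A = B

/-! ### The lattice: a sublattice of the Boolean lattice `2^7` -/

/-- The order ideals of the poset on `{0,…,6}` with `0 < 5 < 6`, `1 < 6`, `2 < 6`. -/
def SL : Sublattice (Fin 7 → Bool) where
  carrier := {f | (f 5 = true → f 0 = true) ∧
    (f 6 = true → f 0 = true ∧ f 1 = true ∧ f 2 = true ∧ f 5 = true)}
  supClosed' := by
    intro f hf g hg
    simp only [Set.mem_ofPred_eq, Pi.sup_apply, Bool.sup_eq_bor, Bool.or_eq_true] at *
    tauto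
  infClosed' := by
    intro f hf g hg
    simp only [Set.mem_ofPred_eq, Pi.inf_apply, Bool.inf_eq_band, Bool.and_eq_true] at *
    tauto

abbrev L : Type := SL

def dec (n : ℕ) : Fin 7 → Bool := fun i => n.testBit i

def enc (f : Fin 7 → Bool) : ℕ := ∑ i : Fin 7, (f i).toNat * 2 ^ (i : ℕ)

def elems : List ℕ := [0, 1, 2, 3, 4, 5, 6, 7, 8, 9, 10, 11, 12, 13, 14, 15, 16, 17, 18, 19, 20,
  21, 22, 23, 24, 25, 26, 27, 28, 29, 30, 31, 33, 35, 37, 39, 41, 43, 45, 47, 49, 51, 53, 55, 57,
  59, 61, 63, 103, 111, 119, 127]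

theorem dec_enc : ∀ f : Fin 7 → Bool, dec (enc f) = f := by decide +kernel

theorem enc_lt : ∀ f : Fin 7 → Bool, enc f < 128 := by decide +kernel

theorem le_dec : ∀ m : Fin 128, ∀ n : Fin 128,
    (∀ i : Fin 7, (m : ℕ).testBit i = true → (n : ℕ).testBit i = true) ↔
      (m : ℕ) &&& (n : ℕ) = m := by decide +kernel

theorem mem_elems : ∀ m : Fin 128,
    (((m : ℕ).testBit 5 = true → (m : ℕ).testBit 0 = true) ∧
      ((m : ℕ).testBit 6 = true → (m : ℕ).testBit 0 = true ∧ (m : ℕ).testBit 1 = true ∧
        (m : ℕ).testBit 2 = true ∧ (m : ℕ).testBit 5 = true)) ↔ (m : ℕ) ∈ elems := by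
  decide +kernel

theorem elems_lt : ∀ m ∈ elems, m < 128 := by decide +kernel

/-- the element of the lattice with a given mask -/
def el (n : ℕ) (hn : n ∈ elems) : L :=
  ⟨dec n, (mem_elems ⟨n, elems_lt n hn⟩).2 hn⟩

/-- the mask of an element -/
def code (a : L) : ℕ := enc a.1

theorem code_mem (a : L) : code a ∈ elems := by
  have h := (mem_elems ⟨enc a.1, enc_lt a.1⟩)
  refine h.1 ?_
  have h2 := a.2
  have e : ∀ i : Fin 7, (enc a.1).testBit i = a.1 i := fun i => congrFun (dec_enc a.1) i
  have h3 : (a.1 5 = true → a.1 0 = true) ∧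
    (a.1 6 = true → a.1 0 = true ∧ a.1 1 = true ∧ a.1 2 = true ∧ a.1 5 = true) := h2
  have e0 := e 0
  have e1 := e 1
  have e2 := e 2
  have e5 := e 5
  have e6 := e 6
  simp only [← e0, ← e1, ← e2, ← e5, ← e6] at h3
  exact h3

theorem enc_dec : ∀ m : Fin 128, enc (dec m) = m := by decide +kernel

theorem code_el (n : ℕ) (hn : n ∈ elems) : code (el n hn) = n :=
  enc_dec ⟨n, elems_lt n hn⟩

theorem code_inj {a b : L} (h : code a = code b) : a = b := by
  apply Subtype.ext
  rw [← dec_enc a.1, ← dec_enc b.1]
  exact congrArg dec h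

theorem el_code (a : L) : el (code a) (code_mem a) = a :=
  code_inj (code_el _ _)

theorem le_iff (a b : L) : a ≤ b ↔ code a &&& code b = code a := by
  have h := le_dec ⟨enc a.1, enc_lt a.1⟩ ⟨enc b.1, enc_lt b.1⟩
  rw [show (code a &&& code b = code a) ↔ _ from h.symm]
  have ea : ∀ i : Fin 7, (enc a.1).testBit i = a.1 i := fun i => congrFun (dec_enc a.1) i
  have eb : ∀ i : Fin 7, (enc b.1).testBit i = b.1 i := fun i => congrFun (dec_enc b.1) i
  simp only [ea, eb]
  constructor
  · intro hab i hi
    have := (show a.1 ≤ b.1 from hab) i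
    rw [hi] at this
    exact (Bool.eq_true_of_true_le this)
  · intro hab
    show a.1 ≤ b.1
    intro i
    by_cases hi : a.1 i = true
    · rw [hi, hab i hi]
    · rw [Bool.not_eq_true] at hi
      rw [hi]
      exact Bool.false_le _

theorem lt_iff (a b : L) : a < b ↔ code a &&& code b = code a ∧ code a ≠ code b := by
  rw [lt_iff_le_and_ne, le_iff]
  exact and_congr_right fun _ => not_congr ⟨fun h => congrArg code h, code_inj⟩

/-! ### The element `x`, the cutset `K` and the nine chains -/

/-- incomparability of masks -/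
def inc (a b : ℕ) : Bool := (a &&& b != a) && (a &&& b != b)

/-- the masks incomparable to `30`, the mask of `x` -/
def Ilist : List ℕ := [1, 3, 5, 9, 17, 33, 7, 11, 13, 19, 21, 25, 35, 37, 41, 49, 15, 23, 27, 29,
  39, 43, 45, 51, 53, 57, 47, 55, 59, 61, 103, 111, 119]

def Klist : List ℕ := [15, 23, 27, 29, 39, 47, 55, 59, 61]

def Dlist : List ℕ := [0, 1, 2, 3, 4, 5, 6, 7, 8, 9, 10, 11, 12, 13, 14, 16, 17, 18, 19, 20, 21,
  22, 24, 25, 26, 28, 33, 35, 37, 41, 43, 45, 49, 51, 53, 57]

def chain : Fin 9 → List ℕ := ![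
  [0, 4, 12, 28, 29, 31, 63, 127],
  [0, 4, 12, 13, 15, 31, 63, 127],
  [0, 4, 20, 21, 23, 31, 63, 127],
  [0, 4, 5, 37, 39, 103, 119, 127],
  [0, 16, 17, 25, 27, 31, 63, 127],
  [0, 16, 18, 19, 51, 59, 63, 127],
  [0, 2, 3, 11, 43, 47, 63, 127],
  [0, 8, 9, 41, 45, 61, 63, 127],
  [0, 1, 33, 49, 53, 55, 63, 127]]

theorem inc_iff (a b : L) : inc (code a) (code b) = true ↔ ¬ a ≤ b ∧ ¬ b ≤ a := by
  rw [le_iff, le_iff, Nat.land_comm (code b) (code a)]
  simp [inc]

theorem Ilist_spec : ∀ n ∈ elems, inc n 30 = true → n ∈ Ilist := by decide +kernel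

theorem Ilist_elems : ∀ n ∈ Ilist, n ∈ elems ∧ inc n 30 = true := by decide +kernel

theorem Klist_spec : ∀ n ∈ Klist, n ∈ elems ∧ inc n 30 = true := by decide +kernel

theorem x_elems : 30 ∈ elems := by decide +kernel

/-- the element `x = {1,2,3,4}` -/
def x : L := el 30 x_elems

theorem code_x : code x = 30 := code_el _ _

/-- the cutset -/
def K : Set L := {a | code a ∈ Klist}

theorem K_ncard : K.ncard = 9 := by
  have h : K = Set.range (fun i : Fin 9 => el (Klist.get i) (Klist_spec _ (List.get_mem _ _)).1) := by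
    ext a
    constructor
    · intro ha
      obtain ⟨i, hi⟩ := List.mem_iff_get.1 (show code a ∈ Klist from ha)
      refine ⟨i, ?_⟩
      apply code_inj
      rw [← hi]
      exact code_el _ _
    · rintro ⟨i, rfl⟩
      show code _ ∈ Klist
      rw [code_el]
      exact List.get_mem _ _
  rw [h, ← Set.image_univ, Set.ncard_image_of_injective]
  · simp
  · intro i j hij
    have h2 := congrArg code hij
    simp only [code_el] at h2
    have h3 : Function.Injective Klist.get := List.nodup_iff_injective_get.1 (by decide +kernel)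
    exact h3 h2

theorem cover_spec : ∀ d ∈ Dlist, ∀ z ∈ elems, d &&& z = d → d ≠ z →
    (∀ w ∈ elems, d &&& w = d → d ≠ w → w &&& z = w → w ≠ z → False) →
      z ∈ Dlist ∨ z ∈ Klist ∨ z = 30 := by decide +kernel

theorem D_spec : 0 ∈ Dlist ∧ 127 ∉ Dlist ∧ (∀ n ∈ elems, 0 &&& n = 0) ∧
    (∀ n ∈ elems, n &&& 127 = n) ∧ 0 ∈ elems ∧ 127 ∈ elems := by decide +kernel

theorem mem_of_comparable {C : Set L} (hC : IsMaxChain (· ≤ ·) C) (w : L)
    (hw : ∀ c ∈ C, c ≤ w ∨ w ≤ c) : w ∈ C := by
  have h1 : IsChain (· ≤ ·) (insert w C) :=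
    hC.1.insert fun b hb _ => (hw b hb).symm
  have h2 := hC.2 h1 (Set.subset_insert w C)
  rw [h2]
  exact Set.mem_insert w C

theorem K_cut : IsCutsetFor x K := by
  constructor
  · intro k hk
    have h := (Klist_spec _ hk).2
    rw [← code_x] at h
    exact (inc_iff k x).1 h
  · intro C hC
    by_contra hne
    rw [Set.not_nonempty_iff_eq_empty] at hne
    have hno : ∀ c ∈ C, c ∉ K ∧ c ≠ x := by
      intro c hc
      constructor
      · intro h
        have : c ∈ (K ∪ {x}) ∩ C := ⟨Or.inl h, hc⟩
        rw [hne] at this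
        exact this
      · intro h
        have : c ∈ (K ∪ {x}) ∩ C := ⟨Or.inr h, hc⟩
        rw [hne] at this
        exact this
    obtain ⟨h0D, h127, h0, h1, h0e, h1e⟩ := D_spec
    have hbot : el 0 h0e ∈ C := mem_of_comparable hC _ fun c _ => by
      right
      rw [le_iff, code_el]
      exact h0 _ (code_mem c)
    have htop : el 127 h1e ∈ C := mem_of_comparable hC _ fun c _ => by
      left
      rw [le_iff, code_el]
      exact h1 _ (code_mem c)
    have hfin : Finite L := inferInstance
    -- maximal element of C in D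
    obtain ⟨y, ⟨hyC, hyD⟩, hymax⟩ := (wellFounded_gt (α := L)).has_min
      {y | y ∈ C ∧ code y ∈ Dlist} ⟨el 0 h0e, hbot, by rw [code_el]; exact h0D⟩
    have hy1 : y < el 127 h1e := by
      rw [lt_iff, code_el]
      refine ⟨h1 _ (code_mem y), ?_⟩
      intro h
      rw [h] at hyD
      exact h127 hyD
    obtain ⟨z, ⟨hzC, hyz⟩, hzmin⟩ := (wellFounded_lt (α := L)).has_min
      {z | z ∈ C ∧ y < z} ⟨el 127 h1e, htop, hy1⟩
    have hyz' := (lt_iff y z).1 hyz
    have hcov := cover_spec (code y) hyD (code z) (code_mem z) hyz'.1 hyz'.2 (by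
      intro w hw h1 h2 h3 h4
      set w' : L := el w hw
      have hcw : code w' = w := code_el w hw
      have hyw : y < w' := by rw [lt_iff, hcw]; exact ⟨h1, h2⟩
      have hwz : w' < z := by rw [lt_iff, hcw]; exact ⟨h3, h4⟩
      have hwC : w' ∈ C := by
        refine mem_of_comparable hC w' fun c hc => ?_
        rcases hC.1.total hc hyC with h | h
        · left; exact h.trans hyw.le
        · rcases eq_or_lt_of_le h with h | h
          · left; rw [← h]; exact hyw.le
          · rcases hC.1.total hc hzC with h5 | h5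
            · rcases eq_or_lt_of_le h5 with h6 | h6
              · right; rw [h6]; exact hwz.le
              · exact absurd h6 (hzmin c ⟨hc, h⟩)
            · right; exact hwz.le.trans h5
      exact hzmin w' ⟨hwC, hyw⟩ hwz)
    rcases hcov with h | h | h
    · exact hymax z ⟨hzC, h⟩ hyz
    · exact (hno z hzC).1 h
    · exact (hno z hzC).2 (code_inj (by rw [h, code_x]))

theorem chain_spec : ∀ i : Fin 9, (∀ c ∈ chain i, c ∈ elems) ∧ 30 ∉ chain i ∧
    (∀ c ∈ chain i, ∀ d ∈ chain i, c &&& d = c ∨ d &&& c = d) ∧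
    (∀ w ∈ elems, (∀ c ∈ chain i, c &&& w = c ∨ w &&& c = w) → w ∈ chain i) := by
  decide +kernel

theorem chain_disj : ∀ i j : Fin 9, ∀ c ∈ chain i, c ∈ chain j → inc c 30 = true → i = j := by
  decide +kernel

theorem chain_max (i : Fin 9) : IsMaxChain (· ≤ ·) {a : L | code a ∈ chain i} := by
  obtain ⟨h1, -, h3, h4⟩ := chain_spec i
  constructor
  · intro a ha b hb _
    rcases h3 _ ha _ hb with h | h
    · left; exact (le_iff a b).2 h
    · right; exact (le_iff b a).2 h
  · intro t ht hsub
    refine Set.Subset.antisymm hsub ?_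
    intro w hw
    refine h4 _ (code_mem w) fun c hc => ?_
    have hc' : el c (h1 c hc) ∈ t := hsub (by show code _ ∈ chain i; rw [code_el]; exact hc)
    rcases ht.total hc' hw with h | h
    · left; have := (le_iff _ _).1 h; rwa [code_el] at this
    · right; have := (le_iff _ _).1 h; rwa [code_el] at this

theorem nine_le (K' : Set L) (hK : IsCutsetFor x K') : 9 ≤ K'.ncard := by
  have h : ∀ i : Fin 9, ∃ k ∈ K', code k ∈ chain i := by
    intro i
    obtain ⟨k, hk, hki⟩ := hK.2 _ (chain_max i)
    rcases hk with hk | hk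
    · exact ⟨k, hk, hki⟩
    · exfalso
      have : k = x := hk
      rw [this] at hki
      have h2 : code x ∈ chain i := hki
      rw [code_x] at h2
      exact (chain_spec i).2.1 h2
  choose k hkK hkc using h
  have hinj : Function.Injective k := by
    intro i j hij
    refine chain_disj i j (code (k i)) (hkc i) (by rw [hij]; exact hkc j) ?_
    rw [← code_x]
    exact (inc_iff _ _).2 (hK.1 _ (hkK i))
  have h2 : (Set.range k).ncard = 9 := by
    rw [← Set.image_univ, Set.ncard_image_of_injective _ hinj]
    simp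
  rw [← h2]
  exact Set.ncard_le_ncard (by rintro _ ⟨i, rfl⟩; exact hkK i) (Set.toFinite _)

/-! ### No maximal antichain of size 10 through `x` -/

/-- Exhaustive search over the antichains with `need` further elements; at each leaf an element
incomparable to everything chosen is required. -/
def search : ℕ → List ℕ → List ℕ → ℕ → Bool
  | _, _, ch, 0 => Ilist.any fun w => ch.all fun z => inc w z
  | 0, _, _, _ + 1 => false
  | _ + 1, [], _, _ + 1 => true
  | k + 1, v :: c, ch, need + 1 =>
    if c.length < need then true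
    else search k (c.filter (inc v)) (v :: ch) need && search k c ch (need + 1)

theorem search_true : search 34 Ilist [] 9 = true := by decide +kernel

theorem search_spec : ∀ (k : ℕ) (c ch : List ℕ) (need : ℕ), search k c ch need = true →
    ∀ S : Finset ℕ, (∀ s ∈ S, s ∈ c) → S.card = need →
      (∀ a ∈ S, ∀ b ∈ S, a ≠ b → inc a b = true) →
      ∃ w ∈ Ilist, (∀ z ∈ ch, inc w z = true) ∧ (∀ z ∈ S, inc w z = true) := by
  intro k
  induction k with
  | zero =>
    intro c ch need h S hS hc hI
    cases need with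
    | zero =>
      rw [Finset.card_eq_zero] at hc
      subst hc
      simp only [search, List.any_eq_true, List.all_eq_true] at h
      obtain ⟨w, hw, hz⟩ := h
      exact ⟨w, hw, hz, by simp⟩
    | succ n => simp [search] at h
  | succ k ih =>
    intro c ch need h S hS hc hI
    cases need with
    | zero =>
      rw [Finset.card_eq_zero] at hc
      subst hc
      simp only [search, List.any_eq_true, List.all_eq_true] at h
      obtain ⟨w, hw, hz⟩ := h
      exact ⟨w, hw, hz, by simp⟩
    | succ n =>
      cases c with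
      | nil =>
        exfalso
        have : S = ∅ := by
          rw [Finset.eq_empty_iff_forall_notMem]
          intro s hs
          simpa using hS s hs
        rw [this] at hc
        simp at hc
      | cons v c =>
        rw [search] at h
        have hlen : ¬ c.length < n := by
          intro hl
          have h1 : S ⊆ (v :: c).toFinset := by
            intro s hs
            rw [List.mem_toFinset]
            exact hS s hs
          have h2 := Finset.card_le_card h1
          have h3 := List.toFinset_card_le (v :: c)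
          rw [List.length_cons] at h3
          omega
        rw [if_neg hlen, Bool.and_eq_true] at h
        by_cases hv : v ∈ S
        · obtain ⟨w, hw, hw1, hw2⟩ := ih (c.filter (inc v)) (v :: ch) n h.1 (S.erase v) (by
            intro s hs
            have hs1 := Finset.mem_of_mem_erase hs
            have hs2 := Finset.ne_of_mem_erase hs
            rw [List.mem_filter]
            refine ⟨?_, hI v hv s hs1 hs2.symm⟩
            rcases List.mem_cons.1 (hS s hs1) with h3 | h3
            · exact absurd h3 hs2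
            · exact h3) (by rw [Finset.card_erase_of_mem hv, hc]; rfl) (by
            intro a ha b hb hab
            exact hI a (Finset.mem_of_mem_erase ha) b (Finset.mem_of_mem_erase hb) hab)
          refine ⟨w, hw, fun z hz => hw1 z (List.mem_cons_of_mem _ hz), fun z hz => ?_⟩
          by_cases hzv : z = v
          · rw [hzv]; exact hw1 v List.mem_cons_self
          · exact hw2 z (Finset.mem_erase.2 ⟨hzv, hz⟩)
        · exact ih c ch (n + 1) h.2 S (by
            intro s hs
            rcases List.mem_cons.1 (hS s hs) with h3 | h3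
            · rw [h3] at hs; exact absurd hs hv
            · exact h3) hc hI

theorem no_antichain (A : Set L) (hA : IsMaximalAntichain A) (hx : x ∈ A) : A.ncard ≠ 10 := by
  intro hcard
  have hfin : A.Finite := Set.toFinite A
  set S : Finset ℕ := (hfin.toFinset.erase x).image code with hS
  have hmem : ∀ s, s ∈ S ↔ ∃ a ∈ A, a ≠ x ∧ code a = s := by
    intro s
    rw [hS, Finset.mem_image]
    constructor
    · rintro ⟨a, ha, rfl⟩
      rw [Finset.mem_erase, Set.Finite.mem_toFinset] at ha
      exact ⟨a, ha.2, ha.1, rfl⟩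
    · rintro ⟨a, ha, hax, rfl⟩
      exact ⟨a, by rw [Finset.mem_erase, Set.Finite.mem_toFinset]; exact ⟨hax, ha⟩, rfl⟩
  have hSc : S.card = 9 := by
    rw [hS, Finset.card_image_of_injective _ (fun a b h => code_inj h), Finset.card_erase_of_mem
      (by rw [Set.Finite.mem_toFinset]; exact hx), ← Set.ncard_eq_toFinset_card A hfin, hcard]
  have hinc : ∀ a ∈ A, ∀ b ∈ A, a ≠ b → inc (code a) (code b) = true := by
    intro a ha b hb hab
    exact (inc_iff a b).2 ⟨hA.1 ha hb hab, hA.1 hb ha hab.symm⟩
  obtain ⟨w, hw, -, hwS⟩ := search_spec 34 Ilist [] 9 search_true S (by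
    intro s hs
    obtain ⟨a, ha, hax, rfl⟩ := (hmem s).1 hs
    refine Ilist_spec _ (code_mem a) ?_
    rw [← code_x]
    exact hinc a ha x hx hax) hSc (by
    intro s hs t ht hst
    obtain ⟨a, ha, hax, rfl⟩ := (hmem s).1 hs
    obtain ⟨b, hb, hbx, rfl⟩ := (hmem t).1 ht
    exact hinc a ha b hb fun h => hst (by rw [h]))
  obtain ⟨hwe, hw30⟩ := Ilist_elems w hw
  set w' : L := el w hwe with hw'
  have hcw : code w' = w := code_el w hwe
  have hall : ∀ a ∈ A, inc (code w') (code a) = true := by
    intro a ha
    rw [hcw]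
    by_cases hax : a = x
    · rw [hax, code_x]; exact hw30
    · exact hwS _ ((hmem _).2 ⟨a, ha, hax, rfl⟩)
  have hins : IsAntichain (· ≤ ·) (insert w' A) := by
    refine hA.1.insert ?_ ?_
    · intro b hb _
      exact ((inc_iff w' b).1 (hall b hb)).2
    · intro b hb _
      exact ((inc_iff w' b).1 (hall b hb)).1
  have h2 := hA.2 _ hins (Set.subset_insert w' A)
  have h3 : w' ∈ A := by rw [h2]; exact Set.mem_insert w' A
  exact ((inc_iff w' w').1 (hall w' h3)).1 le_rfl

/-- Main theorem: there is a finite distributive lattice `L` and an element `x ∈ L` such that the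
least cardinality of a cutset for `x` is `m` and no maximal antichain of `L` containing `x` has
exactly `m + 1` elements. -/
theorem result :
    ∃ (L : Type) (_ : DistribLattice L) (_ : Finite L) (x : L) (m : ℕ),
      IsLeast {k : ℕ | ∃ K : Set L, IsCutsetFor x K ∧ K.ncard = k} m ∧
        ¬ ∃ A : Set L, IsMaximalAntichain A ∧ x ∈ A ∧ A.ncard = m + 1 := by
  refine ⟨L, inferInstance, inferInstance, x, 9, ⟨⟨K, K_cut, K_ncard⟩, ?_⟩, ?_⟩
  · rintro k ⟨K', hK', rfl⟩
    exact nine_le K' hK'
  · rintro ⟨A, hA, hx, hc⟩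
    exact no_antichain A hA hx hc

end Pool.Agent.Results.MP_d015b4_co.NoAntichain
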